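import Pool.Agent.Lib.MP_33b3f9_ag.M4.P.GC
import Pool.Agent.Lib.MP_33b3f9_ag.MG.KzFinM

/-!
Existence and uniqueness of the Galois representations on the Tate modules.
-/

set_option autoImplicit false

namespace MG.Gal

open Complex Matrix M4 M4.Gal

variable [Dim] {τ : Mat} {K : IntermediateField ℚ ℂ}

theorem fix (hτ : InH τ) (hK : DefX τ K) (σ : ℂ ≃ₐ[K] ℂ) :
    σ.toRingEquiv I = I ∧ Rl τ σ.toRingEquiv 0 0 := by
  have hI : σ I = I := by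
    have := K.toSubalgebra.pow_mem hK.1 2
    rw [M4.Kz.ee_pow, show ((2 : ℕ) : ℂ) * (1 / 8) = 1 / 4 by norm_num, M4.Kz.ee_quarter] at this
    exact σ.commutes ⟨_, this⟩
  obtain ⟨e, he⟩ : ∃ e, th2 τ e ≠ 0 := exists_null_ne_zero hτ
  refine ⟨hI, σ (th2 τ e) / th2 τ e, fun k => ?_⟩
  obtain ⟨e', n, rfl⟩ := exists_bz k
  have h1 : σ (th2 τ e' / th2 τ e) = th2 τ e' / th2 τ e := σ.commutes ⟨_, hK.2 e' e⟩
  rw [map_div₀, div_eq_iff ((map_ne_zero σ).2 he)] at h1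
  rw [M4.Kz.XX_add_two hτ, map_mul, map_mul, M4.Kz.map_chi, map_zpow₀, XX_zero, mul_left_comm]
  exact congrArg₂ (fun a b => chi n * a ^ M4.Kz.Ef (bz e') n * b) hI (h1.trans (by rw [th2]; ring))

/-- The Galois representations exist. -/
theorem exists_rep (hτ : InH τ) (hK : DefX τ K) : ∃ r : Rep K, TateX τ K r ∧
    ∀ (l : ℕ) [Fact l.Prime] (σ : ℂ ≃ₐ[K] ℂ) (g : GL ν ℤ_[l]),
      Ac τ σ.toRingEquiv (g : Matrix ν ν ℤ_[l]) ↔ g = r l σ := by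
  choose g hg using fun (l : ℕ) (_ : Fact l.Prime) (σ : ℂ ≃ₐ[K] ℂ) =>
    exists_Ac (l := l) hτ (fix hτ hK σ).1 (fix hτ hK σ).2
  have hu := fun (l : ℕ) (_ : Fact l.Prime) (σ : ℂ ≃ₐ[K] ℂ) (x : Matrix ν ν ℤ_[l])
    (h : Ac τ σ.toRingEquiv x) => Ac.unique hτ (fix hτ hK σ).1 (fix hτ hK σ).2 h (hg l _ σ)
  refine ⟨fun l _ => MonoidHom.toHomUnits ⟨⟨g l _, (hu l _ 1 1 (Ac.one hτ)).symm⟩, fun σ σ' =>
    (hu l _ (σ * σ') _ ((hg l _ σ).mul (hg l _ σ'))).symm⟩, fun σ x y h => ?_,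
    fun l _ σ x => ⟨fun h => Units.ext (hu l _ σ _ h), fun h => by rw [h]; exact hg l _ σ⟩⟩
  obtain ⟨N, hN, a, rfl⟩ : ∃ N : ℕ, N ≠ 0 ∧ ∃ a : ν → ℤ, x = fun j => (a j : ℚ) / N := by
    choose c hc using fun j => Finset.dvd_prod_of_mem (fun j => (x j).den) (Finset.mem_univ j)
    have h0 : ∏ j, (x j).den ≠ 0 := Finset.prod_ne_zero_iff.2 fun j _ => (x j).den_nz
    refine ⟨_, h0, fun j => (x j).num * c j, funext fun j => ?_⟩
    rw [eq_div_iff (Nat.cast_ne_zero.2 h0), hc j, Nat.cast_mul, ← mul_assoc, Rat.mul_den_eq_num]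
    simp
  obtain ⟨R, hR⟩ := exists_acts hτ (fix hτ hK σ).1 (fix hτ hK σ).2 hN
  have hL : M4.Kz.Lifts (fun l _ => g l _ σ) N R := fun l _ i j =>
    (M4.Kz.norm_le_iff_dvd _ _).2 ((hg l _ σ).dvd hτ hN hR i j)
  choose n hn using fun i => exists_int (q := y i - ((R *ᵥ a) i : ℚ) / N) fun l _ => by
    have h1 := Padic.nonarchimedean _ _ |>.trans (max_le (hL.tate hN a l i)
      ((norm_sub_rev _ _).trans_le (h l i)))
    rw [Rat.cast_sub]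
    exact (congrArg norm (sub_add_sub_cancel' _ _ _)).symm.trans_le h1
  obtain ⟨c, hc⟩ := Rl.shift hτ (hR a) 0 n
  refine ⟨c, fun ε => ?_⟩
  refine (congrArg (fun z => σ (XX τ (bz ε) z)) (funext fun i => ?_)).trans
    ((hc (bz ε)).trans (congrArg (fun z => c * XX τ (bz ε) z) (funext fun i => ?_)))
  · simp [M4.Kz.rq, rz, div_eq_inv_mul]
  · rw [sub_eq_iff_eq_add'.1 (hn i)]
    simp [M4.Kz.rq, rz, div_eq_inv_mul]

end MG.Gal
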