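import Pool.Agent.Lib.MP_33b3f9_ag.M8.P.LastA
import Pool.Agent.Lib.MP_33b3f9_ag.M8.E3.Cst
import Pool.Agent.Lib.MP_33b3f9_ag.MG.Tr

/-!
The Mumford-Tate conjecture from the tangent algebra.
-/

set_option autoImplicit false

noncomputable section

namespace MG

open M4 Matrix Function Pool.Agent.Lib.MP_33b3f9_ag Pool.Agent.M4.Mx

variable [Dim]

/-- The determinant takes infinitely many values on a subgroup of finite index. -/
theorem det_inf (K : IntermediateField ℚ ℂ) [FiniteDimensional ℚ K] {ℓ : ℕ} [Fact ℓ.Prime]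
    (r : (ℂ ≃ₐ[K] ℂ) →* GL ν ℤ_[ℓ])
    (hmu : ∀ σ : ℂ ≃ₐ[K] ℂ, ∃ c : ℤ_[ℓ],
      (r σ : Matrix ν ν ℤ_[ℓ])ᵀ * Matrix.J ι ℤ_[ℓ] * (r σ : Matrix ν ν ℤ_[ℓ]) =
        c • Matrix.J ι ℤ_[ℓ] ∧
      ∀ (n : ℕ) (ζ : ℂ), ζ ^ ℓ ^ n = 1 → σ ζ = ζ ^ (PadicInt.toZModPow n c).val)
    (U : Subgroup (ℂ ≃ₐ[K] ℂ)) [U.FiniteIndex] :
    ((fun σ => GeneralLinearGroup.det (r σ)) '' U).Infinite := by
  classical
  intro hfin
  let d := GeneralLinearGroup.det.comp r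
  have hp : ℓ.Prime := Fact.out
  have hU : (d.ker ⊓ U).FiniteIndex := by
    have : Finite (U.map d) := hfin.to_subtype
    refine ⟨?_⟩
    rw [← Subgroup.relIndex_mul_index inf_le_right, Subgroup.inf_relIndex_right,
      Subgroup.relIndex_ker]
    exact mul_ne_zero Nat.card_pos.ne' Subgroup.FiniteIndex.index_ne_zero
  have := Fintype.ofFinite ((ℂ ≃ₐ[K] ℂ) ⧸ (d.ker ⊓ U))
  obtain ⟨n, hn⟩ : ∃ n, n = Module.finrank ℚ K *
    (Fintype.card ((ℂ ≃ₐ[K] ℂ) ⧸ (d.ker ⊓ U)) * Fintype.card ν) := ⟨_, rfl⟩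
  have h0 : 0 < ℓ ^ (n + 1) := pow_pos hp.pos _
  have hζ := Complex.isPrimitiveRoot_exp _ h0.ne'
  generalize Complex.exp _ = ζ at hζ
  have hi : IsIntegral K ζ := (hζ.isIntegral h0).tower_top
  have h1 : ((minpoly K ζ).rootSet ℂ).toFinset ⊆
      (Finset.univ ×ˢ (Polynomial.nthRoots (Fintype.card ν) (1 : ℤ_[ℓ])).toFinset).image
        fun q : ((ℂ ≃ₐ[K] ℂ) ⧸ (d.ker ⊓ U)) × ℤ_[ℓ] =>
          q.1.out (ζ ^ (PadicInt.toZModPow (n + 1) q.2).val) := by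
    intro y hy
    obtain ⟨σ, rfl⟩ := exists_aut K hi
      (Polynomial.aeval_eq_zero_of_mem_rootSet (Set.mem_toFinset.1 hy))
    obtain ⟨τ, hτ⟩ := QuotientGroup.mk_out_eq_mul (d.ker ⊓ U) σ
    obtain ⟨c, h1, h2⟩ := hmu (τ⁻¹ : (d.ker ⊓ U : Subgroup _)).1
    have hd : (r (τ⁻¹ : (d.ker ⊓ U : Subgroup _)).1 : Matrix ν ν ℤ_[ℓ]).det = 1 :=
      congrArg Units.val τ⁻¹.2.1
    have h3 := congrArg Matrix.det h1
    rw [det_mul, det_mul, det_transpose, hd, one_mul, mul_one, det_smul] at h3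
    have h4 : c ^ Fintype.card ν = 1 := mul_right_cancel₀ (Matrix.isUnit_det_J ι ℤ_[ℓ]).ne_zero
      (h3.symm.trans (one_mul _).symm)
    refine Finset.mem_image.2 ⟨(σ, c), ?_, ?_⟩
    · exact Finset.mem_product.2 ⟨Finset.mem_univ _,
        Multiset.mem_toFinset.2 ((Polynomial.mem_nthRoots Fintype.card_pos).2 h4)⟩
    · simp only [← h2 _ ζ hζ.pow_eq_one, hτ]
      simp
  have h2 : (minpoly K ζ).natDegree ≤ Fintype.card ((ℂ ≃ₐ[K] ℂ) ⧸ (d.ker ⊓ U)) * Fintype.card ν := by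
    rw [← Polynomial.card_rootSet_eq_natDegree (K := ℂ) (minpoly.irreducible hi).separable
      (IsAlgClosed.splits _), ← Set.toFinset_card]
    refine (Finset.card_le_card h1).trans (Finset.card_image_le.trans ?_)
    rw [Finset.card_product, Finset.card_univ]
    exact Nat.mul_le_mul_left _ ((Multiset.toFinset_card_le _).trans (Polynomial.card_nthRoots _ _))
  have h3 := (mxcyc_deg K hi).trans (Nat.mul_le_mul_left _ h2)
  rw [← hn, ← Polynomial.cyclotomic_eq_minpoly_rat hζ h0, Polynomial.natDegree_cyclotomic,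
    Nat.totient_prime_pow_succ hp] at h3
  exact absurd ((Nat.le_mul_of_pos_right _ (Nat.sub_pos_of_lt hp.one_lt)).trans h3)
    (not_le.2 (Nat.lt_pow_self hp.one_lt))

theorem mcl_zcl {ℓ : ℕ} [Fact ℓ.Prime] {Γ : Type} [Group Γ] (r : Γ →* GL ν ℤ_[ℓ]) (U : Subgroup Γ)
    {g : GL ν (Om ℓ)} (hg : (g : Matrix ν ν (Om ℓ)) ∈ mcl (imU r U : Set _)) :
    g ∈ zcl (Om ℓ) ((fun σ => toQ (r σ)) '' U) := by
  intro P hP
  have h1 := hg (MvPolynomial.map (algebraMap ℚ_[ℓ] (Om ℓ)) P) (by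
    rintro _ ⟨σ, hσ, rfl⟩
    rw [evalM, MvPolynomial.aeval_map_algebraMap]
    have h2 := MvPolynomial.comp_aeval_apply
      (fun p : ν × ν => (toQ (r σ) : Matrix ν ν ℚ_[ℓ]) p.1 p.2)
      (Algebra.ofId ℚ_[ℓ] (Om ℓ)) P
    have h3 := hP _ ⟨σ, hσ, rfl⟩
    rw [evalM] at h3
    rw [h3, map_zero] at h2
    exact h2.symm)
  rwa [evalM, MvPolynomial.aeval_map_algebraMap] at h1

variable {τ : Mat} {e : ℕ} {a b : MZ} {m n : ℕ} {Ω : Type} [Field Ω]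

theorem mt_comm [Algebra ℚ Ω] {I : Matrix ν ν ℝ} {d : MZ} (hd : Commute (zr d) I)
    {g : Matrix ν ν Ω} (hg : ∀ P ∈ mtEqns I, evalM g P = 0) : Commute (zM Ω d) g := by
  rw [← zM_map (algebraMap ℚ Ω)]
  refine (M8.cmEq_iff _ g).1 fun P hP => hg P (M8.cmEq_subset ?_ hP)
  rw [zM_map (algebraMap ℚ ℝ)]
  exact hd

/-- The closure contains the tuples of symplectic matrices. -/
theorem Mor.sp_mcl [CharZero Ω] (z : Mor e a b Ω) (T : Submonoid (Matrix ν ν Ω))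
    (h1 : ∀ Z, (∀ s, Sp (J (Fin 4) Ω) (Z s)) → z.em Z ∈ tng T) {x : Fin e → M8 Ω}
    (hx : ∀ s, (x s)ᵀ * J (Fin 4) Ω * x s = J (Fin 4) Ω) :
    z.em x ∈ mcl (T : Set (Matrix ν ν Ω)) := by
  have hE := J_transpose (Fin 4) Ω
  let M : Submonoid (Matrix ν ν Ω) :=
    { carrier := mcl T
      mul_mem' := fun ha hb => mcl_mul (fun _ h _ h' => T.mul_mem h h') ha hb
      one_mem' := subset_mcl _ T.one_mem }
  have k1 : ∀ s, z.em (Pi.mulSingle s (x s)) ∈ M := fun s => by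
    obtain ⟨φ, hφ⟩ : ∃ φ : M8 Ω →* Matrix ν ν Ω, ∀ y, φ y = z.em (Pi.mulSingle s y) :=
      ⟨z.em.toRingHom.toMonoidHom.comp (MonoidHom.mulSingle (fun _ => M8 Ω) s), fun _ => rfl⟩
    rw [← hφ, ← Submonoid.mem_comap]
    refine sp_gen hE (isUnit_det_J _ _).ne_zero _ (fun u c => ?_) (hx s)
    have e1 : (Pi.mulSingle s (1 + c • sqm (J (Fin 4) Ω) u) : Fin e → M8 Ω) =
        1 + c • (Pi.single s (sqm (J (Fin 4) Ω) u) : Fin e → M8 Ω) := funext fun t => by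
      by_cases h : t = s
      · subst h
        simp
      · simp [h]
    rw [Submonoid.mem_comap, hφ, e1, map_add, map_one, map_smul]
    refine tng_exp (h1 _ fun t => ?_) ?_ c
    · by_cases h : t = s
      · subst h
        rw [Pi.single_eq_same]
        exact sqm_sp hE u
      · simp [h, Sp]
    · rw [← map_mul, ← Pi.single_mul, sqm, vecMulVec_mul_vecMulVec, dotProduct_comm,
        trans_alt hE u, zero_smul, vecMulVec_zero, Pi.single_zero, map_zero]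
  have k2 : ∀ S : Finset (Fin e), z.em (fun s => if s ∈ S then x s else 1) ∈ M := fun S => by
    induction S using Finset.induction_on with
    | empty => exact (congrArg (· ∈ M) (map_one z.em)).mpr M.one_mem
    | insert s S hs ih =>
      have h := M.mul_mem (k1 s) ih
      rw [← map_mul] at h
      refine (congrArg (fun y => z.em y ∈ M) (funext fun t => ?_)).mp h
      by_cases h : t = s
      · subst h
        simp [hs]
      · simp [h]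
  exact (congrArg (fun y => z.em y ∈ M) (funext fun t => if_pos (Finset.mem_univ t))).mp (k2 _)

/-- The closure contains the similitudes that commute with `a` and `b`. -/
theorem Mor.gsp_mcl [IsAlgClosed Ω] [CharZero Ω] (z : Mor e a b Ω) (T : Submonoid (Matrix ν ν Ω))
    (h1 : ∀ Z, (∀ s, Sp (J (Fin 4) Ω) (Z s)) → z.em Z ∈ tng T) (G : Set (Matrix ν ν Ω))
    (h2 : ∀ t ∈ G, t.det ≠ 0 ∧ Commute (zM Ω a) t ∧ Commute (zM Ω b) t ∧
      ∃ m : Ω, tᵀ * J ι Ω * t = m • J ι Ω) (hT : ∀ t ∈ T, t ∈ G)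
    (h3 : (Matrix.det '' (T : Set (Matrix ν ν Ω))).Infinite) :
    G ⊆ mcl (T : Set (Matrix ν ν Ω)) := by
  classical
  have hd := (isUnit_det_J ι Ω).ne_zero
  have hm : ∀ h ∈ (T : Set (Matrix ν ν Ω)), ∀ h' ∈ (T : Set (Matrix ν ν Ω)),
      h * h' ∈ (T : Set (Matrix ν ν Ω)) := fun _ h _ h' => T.mul_mem h h'
  have hsp : ∀ s : Matrix ν ν Ω, Commute (zM Ω a) s → Commute (zM Ω b) s →
      sᵀ * J ι Ω * s = J ι Ω → s ∈ mcl (T : Set (Matrix ν ν Ω)) := fun s ha hb hs => by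
    rw [← z.em_pr ha hb] at hs ⊢
    exact z.sp_mcl T h1 (by simpa only [one_smul] using (z.sim_iff _ 1).1 (by rwa [one_smul]))
  have hG : ∀ t ∈ G, ∃ (c : Ω) (s : Matrix ν ν Ω), Commute (zM Ω a) s ∧ Commute (zM Ω b) s ∧
      sᵀ * J ι Ω * s = J ι Ω ∧ t = c • s := fun t ht => by
    obtain ⟨hdt, ha, hb, m, hm⟩ := h2 t ht
    obtain ⟨c, s, hs, rfl⟩ := sim_split hd hdt hm
    have hc : c ≠ 0 := fun h => hdt (by rw [h, zero_smul, det_zero])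
    exact ⟨c, s, (Commute.smul_right_iff₀ hc).1 ha, (Commute.smul_right_iff₀ hc).1 hb, hs, rfl⟩
  have hS : {c : Ω | c • (1 : Matrix ν ν Ω) ∈ mcl (T : Set (Matrix ν ν Ω))}.Infinite := by
    refine Set.Infinite.of_image (fun c => (c ^ Fintype.card ν) ^ 2) (Set.Infinite.mono ?_
      (fun hf => h3 (Set.Finite.of_finite_fibers (fun x : Ω => x ^ 2) hf fun y _ => ?_)))
    · rintro _ ⟨_, ⟨t, ht, rfl⟩, rfl⟩
      obtain ⟨c, s, ha, hb, hs, rfl⟩ := hG t (hT t ht)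
      have h4 := congrArg det hs
      rw [det_mul, det_mul, det_transpose] at h4
      have h5 : s.det ^ 2 = 1 := mul_right_cancel₀ hd (by linear_combination h4)
      have h6 : IsUnit s.det := IsUnit.of_pow_eq_one h5 two_ne_zero
      have h8 : ∀ {d : Matrix ν ν Ω}, Commute d s → Commute d s⁻¹ := fun {d} h => by
        rw [Commute, SemiconjBy, ← nonsing_inv_mul_cancel_left s (d * s⁻¹) h6, ← mul_assoc s,
          ← h.eq, mul_nonsing_inv_cancel_right _ _ h6]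
      refine ⟨c, ?_, ?_⟩
      · have h7 := mcl_mul hm (subset_mcl _ ht) (hsp s⁻¹ (h8 ha) (h8 hb) (by
          conv_lhs => rw [← hs]
          rw [← mul_assoc, ← mul_assoc, ← transpose_mul, mul_assoc, mul_nonsing_inv _ h6,
            transpose_one, one_mul, mul_one]))
        rwa [smul_mul_assoc, mul_nonsing_inv _ h6] at h7
      · simp only [det_smul, mul_pow, h5, mul_one]
    · refine ((Polynomial.nthRoots 2 y).toFinset.finite_toSet.subset fun x hx => ?_).inter_of_right _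
      simpa using hx
  intro g hg
  obtain ⟨c, s, ha, hb, hs, rfl⟩ := hG g hg
  have h7 := mcl_mul hm (scal_mcl hS (fun _ h => h) c) (hsp s ha hb hs)
  rwa [smul_mul_assoc, one_mul] at h7

/-- The closure of the image is the Mumford-Tate group. -/
theorem last (K : IntermediateField ℚ ℂ) [FiniteDimensional ℚ K] {ℓ : ℕ} [Fact ℓ.Prime]
    (ρ : (ℂ ≃ₐ[K] ℂ) →* GL ν ℤ_[ℓ]) (hP : PEL e a b m n) (hτ : τ ∈ FX a b)
    (hmu : ∀ σ : ℂ ≃ₐ[K] ℂ, ∃ c : ℤ_[ℓ],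
      (ρ σ : Matrix ν ν ℤ_[ℓ])ᵀ * Matrix.J ι ℤ_[ℓ] * (ρ σ : Matrix ν ν ℤ_[ℓ]) =
        c • Matrix.J ι ℤ_[ℓ] ∧
      ∀ (n : ℕ) (ζ : ℂ), ζ ^ ℓ ^ n = 1 → σ ζ = ζ ^ (PadicInt.toZModPow n c).val)
    (U : Subgroup (ℂ ≃ₐ[K] ℂ)) [U.FiniteIndex] (z : Mor e a b (Om ℓ))
    (hD : ∀ Z, (∀ s, Sp (Matrix.J (Fin 4) (Om ℓ)) (Z s)) → z.em Z ∈ tng (imU ρ U))
    (hsub : (fun σ => toQ (ρ σ)) '' U ⊆ zeroSet ℚ_[ℓ] (mtEqns (cst τ))) :
    zcl (Om ℓ) ((fun σ => toQ (ρ σ)) '' U) = zeroSet (Om ℓ) (mtEqns (cst τ)) := by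
  have hII := M8.E3.cst_sq hτ.1
  have hsp : Sp (J ι ℝ) (cst τ) := M8.E3.cst_sp hτ.1
  obtain ⟨ha, hb⟩ := (hP.fx_iff hτ.1).1 hτ
  generalize cst τ = I at *
  have hd : (J ι ℚ).det ≠ 0 := (isUnit_det_J ι ℚ).ne_zero
  have hJ0 : J ι ℚ ≠ 0 := fun h => hd (by rw [h, det_zero])
  have hIJ : Iᵀ * (J ι ℚ).map (Rat.cast : ℚ → ℝ) * I = (J ι ℚ).map (Rat.cast : ℚ → ℝ) := by
    rw [show (J ι ℚ).map (Rat.cast : ℚ → ℝ) = J ι ℝ from map_J _ (algebraMap ℚ ℝ),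
      eq_neg_of_add_eq_zero_left hsp, Matrix.neg_mul, Matrix.mul_assoc, hII, Matrix.mul_neg,
      neg_neg, Matrix.mul_one]
  have hinj : Injective (toOm ℓ) :=
    (algebraMap ℚ_[ℓ] (Om ℓ)).injective.comp Subtype.val_injective
  have hdet : ∀ σ, ((ρ σ : Matrix ν ν ℤ_[ℓ]).map (toOm ℓ)).det =
      toOm ℓ (GeneralLinearGroup.det (ρ σ) : ℤ_[ℓ]ˣ) := fun σ => ((toOm ℓ).map_det _).symm
  refine Set.Subset.antisymm (MT_sub _ _ hsub) fun g hg => mcl_zcl ρ U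
    (z.gsp_mcl _ hD (mtMon (Om ℓ) I) (fun t ht => ⟨ht.1, mt_comm ha ht.2, mt_comm hb ht.2, ?_⟩)
      ?_ (Set.Infinite.mono ?_ ((det_inf K ρ hmu U).image
      (f := fun u : ℤ_[ℓ]ˣ => toOm ℓ u) (hinj.comp Units.val_injective).injOn))
      ⟨g.det_ne_zero, hg⟩)
  · rw [← map_J ι (algebraMap ℚ (Om ℓ))]
    exact (simEqns_iff hJ0 _).1 fun P hP => ht.2 P (simEqns_subset hII hJ0 hIJ hP)
  · rintro _ ⟨σ, hσ, rfl⟩
    refine ⟨by rw [hdet]; exact (map_ne_zero_iff _ hinj).2 (Units.ne_zero _), fun P hP => ?_⟩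
    exact (evalM_map (algebraMap ℚ_[ℓ] (Om ℓ)) (toQ (ρ σ) : Matrix ν ν ℚ_[ℓ]) P).trans
      (by rw [hsub ⟨σ, hσ, rfl⟩ P hP, map_zero])
  · rintro _ ⟨_, ⟨σ, hσ, rfl⟩, rfl⟩
    exact ⟨_, ⟨σ, hσ, rfl⟩, hdet σ⟩

end MG
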